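import Mathlib
import Pool.Agent.Lib.helper23.DeltaL

namespace Pool.Agent.Results.MP_d17ed7_nt.DeltaOdd

open Complex UpperHalfPlane
open scoped MatrixGroups

/-- the `n`-th Fourier coefficient -/
noncomputable def coeff {k : ℕ} (f : CuspForm 𝒮ℒ k) (n : ℕ) : ℂ := (qExpansion 1 f).coeff n

/-- the Hecke operator `T_p` of weight `k` and level one -/
noncomputable def hecke (k p : ℕ) (f : ℍ → ℂ) (z : ℍ) : ℂ :=
  (p : ℂ) ^ (k - 1) * f (ofComplex (p * z)) +
    (p : ℂ)⁻¹ * ∑ b ∈ Finset.range p, f (ofComplex ((z + b) / p))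

/-- newforms of level one: normalised Hecke eigenforms -/
def IsNewform {k : ℕ} (f : CuspForm 𝒮ℒ k) : Prop :=
  coeff f 1 = 1 ∧ ∀ p : ℕ, p.Prime → ∀ z : ℍ, hecke k p f z = coeff f p * f z

/-- the local factor at `p` of the twisted `L`-function, analytically normalised -/
noncomputable def localFactor {k : ℕ} (f : CuspForm 𝒮ℒ k) {q : ℕ} (χ : DirichletCharacter ℂ q)
    (s : ℂ) (p : ℕ) : ℂ :=
  (1 - coeff f p / (p : ℂ) ^ (((k : ℂ) - 1) / 2) * χ p * (p : ℂ) ^ (-s) +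
    χ p ^ 2 * (p : ℂ) ^ (-2 * s))⁻¹

/-- `L` is the entire continuation of the twisted Euler product -/
def IsTwistL {k : ℕ} (f : CuspForm 𝒮ℒ k) {q : ℕ} (χ : DirichletCharacter ℂ q) (L : ℂ → ℂ) :
    Prop :=
  Differentiable ℂ L ∧ ∀ s : ℂ, 3 / 2 < s.re →
    HasProd (fun p : Nat.Primes => localFactor f χ s p) (L s)

/-- primitive characters of order two -/
def IsQuad {q : ℕ} (χ : DirichletCharacter ℂ q) : Prop :=
  0 < q ∧ χ.IsPrimitive ∧ orderOf χ = 2

open Pool.Agent.Lib.H23Maass in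
theorem key {q : ℕ} (hq : 0 < q) {χ : DirichletCharacter ℂ q} (hχ : χ.IsPrimitive)
    (h2 : χ ^ 2 = 1) : ∃ L, IsTwistL (k := 12) CuspForm.discriminant χ L ∧
      (χ (-1) = -1 → L (1 / 2) = 0) := by
  obtain ⟨L, l1, l2, l3⟩ := delta_L hq hχ h2
  refine ⟨L, ⟨l1, fun s hs => ?_⟩, l2⟩
  convert! l3 s hs using 3 with p
  unfold localFactor
  rw [show (((12 : ℕ) : ℂ) - 1) / 2 = 11 / 2 by norm_num]
  rfl

theorem nsq : ¬ IsSquare (-1 : ZMod 3) := by decide

theorem result : ∃ (k : ℕ) (f : CuspForm 𝒮ℒ k), IsNewform f ∧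
    ∃ (q : ℕ) (χ : DirichletCharacter ℂ q), IsQuad χ ∧
      ∀ (r : ℕ) (ψ : DirichletCharacter ℂ r), IsQuad ψ →
        ∃ L₁ L₂, IsTwistL f ψ L₁ ∧ IsTwistL f (χ.primitive_mul ψ) L₂ ∧
          L₁ (1 / 2) * L₂ (1 / 2) = 0 := by
  have : Fact (Nat.Prime 3) := ⟨Nat.prime_three⟩
  let χ : DirichletCharacter ℂ 3 := (quadraticChar (ZMod 3)).ringHomComp (Int.castRingHom ℂ)
  have c1 : χ (-1) = -1 := by
    have : quadraticChar (ZMod 3) (-1) = -1 :=
      quadraticChar_neg_one_iff_not_isSquare.2 nsq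
    simp [χ, -quadraticChar_apply, this]
  have c2 : χ ^ 2 = 1 := ((quadraticChar_isQuadratic (ZMod 3)).comp _).sq_eq_one
  have c3 : χ ≠ 1 := by
    intro h
    rw [h, MulChar.one_apply isUnit_one.neg] at c1
    norm_num at c1
  refine ⟨12, CuspForm.discriminant, ⟨Lib.H23Maass.aa_one, fun p hp z => ?_⟩, 3, χ,
    ⟨by norm_num, ?_, orderOf_eq_prime c2 c3⟩, ?_⟩
  · have h := Lib.H23Maass.delta_hecke hp z z.im_pos
    have p1 : (p : ℂ) ≠ 0 := by exact_mod_cast hp.ne_zero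
    rw [Lib.H23Maass.Uf_coe] at h
    apply mul_left_cancel₀ p1
    rw [← mul_assoc]
    refine Eq.trans ?_ h
    unfold hecke Lib.H23Maass.Hw Lib.H23Maass.Uf
    rw [mul_add, mul_inv_cancel_left₀ p1, ← mul_assoc, ← pow_succ']
  · rcases (Nat.dvd_prime Nat.prime_three).1 χ.conductor_dvd_level with h | h
    · exact absurd (DirichletCharacter.eq_one_iff_conductor_eq_one.2 h) c3
    · exact h
  · rintro r ψ ⟨r0, h1, h2⟩
    have h3 : ψ ^ 2 = 1 := h2 ▸ pow_orderOf_eq_one ψ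
    have : NeZero (Nat.lcm 3 r) := ⟨Nat.lcm_ne_zero (by norm_num) r0.ne'⟩
    have h4 : (χ.primitive_mul ψ) ^ 2 = 1 := by
      apply DirichletCharacter.changeLevel_injective (χ.mul ψ).conductor_dvd_level
      rw [map_pow, DirichletCharacter.mul_def, DirichletCharacter.changeLevel_primitiveCharacter,
        DirichletCharacter.mul, mul_pow, ← map_pow, ← map_pow, c2, h3]
      simp
    have h5 : (χ.primitive_mul ψ) (-1) = χ (-1) * ψ (-1) := by
      have a := (χ.mul ψ).primitiveCharacter_apply_of_isCoprime (a := -1) isCoprime_one_left.neg_left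
      have b := χ.changeLevel_eq_cast_of_dvd' (Nat.dvd_lcm_left 3 r) (a := -1)
        isCoprime_one_left.neg_left
      have c := ψ.changeLevel_eq_cast_of_dvd' (Nat.dvd_lcm_right 3 r) (a := -1)
        isCoprime_one_left.neg_left
      simp only [Int.cast_neg, Int.cast_one] at a b c
      rw [DirichletCharacter.mul_def, a, DirichletCharacter.mul, MulChar.mul_apply, b, c]
    obtain ⟨L₁, a1, a2⟩ := key r0 h1 h3
    obtain ⟨L₂, b1, b2⟩ := key (Nat.pos_of_ne_zero (χ.mul ψ).conductor_ne_zero)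
      (χ.primitive_mul_isPrimitive ψ) h4
    refine ⟨L₁, L₂, a1, b1, ?_⟩
    rcases ψ.even_or_odd with e | e
    · rw [b2 (by rw [h5, c1, show ψ (-1) = 1 from e, mul_one]), mul_zero]
    · rw [a2 e, zero_mul]

end Pool.Agent.Results.MP_d17ed7_nt.DeltaOdd
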